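import Pool.Agent.Helper7.KT.St

/-!
# Project KT (MP_5176ab_co): module HOB, the number of the edges with poor pairs
-/

set_option autoImplicit false

namespace Pool.Agent.Helper18.KT

open Finset SimpleGraph Filter Topology
open EX Pool.Agent.Helper7.KT

open scoped Classical

theorem hHOB : StHOB := by
  intro k hk U _ G s t hBp hG
  obtain ⟨A, hA, -, -⟩ := hBp
  set N := sN k G with hN
  have hs2 : 2 * (k + 1) < N := by
    rw [hN]
    unfold sN
    omega
  have hcost : 1 ≤ cost G (∅ : Finset U) := one_le_cost G hG ∅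
  have hσ : (0 : ℝ) ≤ (cost G (∅ : Finset U) : ℝ) - 1 := by
    have h1 : (1 : ℝ) ≤ (cost G (∅ : Finset U) : ℝ) := by exact_mod_cast hcost
    linarith
  have h0 : 0 < k := by omega
  have h1 : 1 < k := by omega
  have h2 : 2 < k := by omega
  obtain ⟨m, hm⟩ := box_data_exists k N (by omega) hs2 ((cost G (∅ : Finset U) : ℝ) - 1) 1 hσ
    one_pos
  obtain ⟨T, hT⟩ := box_embeds k m (by omega) G ∅ (by simp)
    (fun u => if u ∈ A then (⟨0, h0⟩ : Fin k) else ⟨1, h1⟩) (by
      intro u v huv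
      have h3 := hA u v huv
      by_cases hu : u ∈ A
      · have hv : v ∉ A := h3.1 hu
        simp [hu, hv]
      · have hv : v ∈ A := by
          by_contra hv
          exact hu (h3.2 hv)
        simp [hu, hv]) (⟨2, h2⟩ : Fin k) (by simp) hcost
  refine ⟨(cost G (∅ : Finset U) : ℝ), by positivity, ?_⟩
  filter_upwards [hm T] with n hn
  intro H hFr
  by_contra hcon
  rw [not_le] at hcon
  have hch : (n.choose k : ℝ) ≤ (n : ℝ) ^ k := by
    exact_mod_cast Nat.choose_le_pow n k
  have hcard : ((cost G (∅ : Finset U) : ℝ) - 1 + 1) * (n.choose k : ℝ) ≤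
      ((H.filter fun E => ¬ Cq (Γr k G H) E).card : ℝ) := by
    have h3 : ((cost G (∅ : Finset U) : ℝ) - 1 + 1) * (n.choose k : ℝ) ≤
        (cost G (∅ : Finset U) : ℝ) * (n : ℝ) ^ k := by
      rw [sub_add_cancel]
      exact mul_le_mul_of_nonneg_left hch (by positivity)
    exact h3.trans hcon.le
  obtain ⟨ι, hι, Y, W, c, Λ, hcι, hD, hY, hw⟩ := hn H (H.filter fun E => ¬ Cq (Γr k G H) E)
    hFr.1 (filter_subset _ _) (by
      intro E hE
      obtain ⟨_, h3⟩ := mem_filter.1 hE
      unfold Cq at h3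
      push Not at h3
      obtain ⟨u, hu, v, hv, huv, h4⟩ := h3
      exact ⟨u, hu, v, hv, huv, fun h5 => h4 ⟨huv, h5⟩⟩) hcard
  exact hFr.2 (hT (Fin n) ι H Y W c Λ hcι hFr.1 hD hY hw)

end Pool.Agent.Helper18.KT
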